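import Pool.Agent.J4H9.BF.Stm3

set_option autoImplicit false

/-!
# Project BF, piece K3 (helper46)

A normal subgroup with a pure cycle of length three and with double flips is `3`-transitive, with signs.
-/

namespace Pool.Agent.J4H46.BF

open Pool.Agent.J4H9.BF

section

variable {G X : Type} [Group G] [MulAction G X] {bar : X → X}

lemma bar_ne (hS : Sgn G X bar) {x y : X} (h : x ≠ bar y) : y ≠ bar x := by
  intro h1
  apply h
  rw [h1, hS.bb]

lemma fresh (_hS : Sgn G X bar) [Finite X] {g : ℕ} (hX : Nat.card X = 2 * g) (hg : 5 ≤ g)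
    (a b c d : X) : ∃ w : X, w ≠ a ∧ w ≠ bar a ∧ w ≠ b ∧ w ≠ bar b ∧ w ≠ c ∧ w ≠ bar c ∧ w ≠ d ∧
      w ≠ bar d := by
  classical
  have := Fintype.ofFinite X
  by_contra hcon
  have h1 : (Finset.univ : Finset X) ⊆ ([a, bar a, b, bar b, c, bar c, d, bar d] : List X).toFinset := by
    intro w _
    by_contra hw
    apply hcon
    simp only [List.mem_toFinset, List.mem_cons, List.not_mem_nil, or_false, not_or] at hw
    exact ⟨w, hw.1, hw.2.1, hw.2.2.1, hw.2.2.2.1, hw.2.2.2.2.1, hw.2.2.2.2.2.1, hw.2.2.2.2.2.2.1,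
      hw.2.2.2.2.2.2.2⟩
  have h2 := (Finset.card_le_card h1).trans (List.toFinset_card_le _)
  rw [Finset.card_univ, ← Nat.card_eq_fintype_card, hX] at h2
  simp only [List.length_cons, List.length_nil] at h2
  omega

/-- conjugates of the pure cycle -/
lemma rot (hS : Sgn G X bar) (hMT : MT G X bar 3) {K : Subgroup G} (hK : K.Normal) {z : G} {x₁ : X}
    (hz : z ∈ K) (hc : PureCyc G X bar 3 z x₁) (c : Fin 3 → X) (hD : Dist bar c) :
    ∃ κ ∈ K, (κ • c 0 = c 1 ∨ κ • c 0 = bar (c 1)) ∧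
      ∀ w, (∀ i, w ≠ c i ∧ w ≠ bar (c i)) → κ • w = w := by
  have hA : Dist bar (fun i : Fin 3 => z ^ (i : ℕ) • x₁) := by
    intro i j hij
    refine ⟨fun h => hij ?_, hc.ne _ _⟩
    exact Fin.ext (hc.inj i i.2 j j.2 h)
  obtain ⟨σ, hσ⟩ := hMT _ c hA hD
  have hpow : ∀ k : ℕ, ∃ i : Fin 3, z ^ k • x₁ = z ^ (i : ℕ) • x₁ := by
    intro k
    induction k with
    | zero => exact ⟨0, rfl⟩
    | succ k ih =>
      obtain ⟨i, hi⟩ := ih
      have e : z ^ (k + 1) • x₁ = z ^ ((i : ℕ) + 1) • x₁ := by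
        rw [pow_succ' z k, mul_smul, hi, ← mul_smul, ← pow_succ']
      rcases Nat.lt_or_ge ((i : ℕ) + 1) 3 with h | h
      · exact ⟨⟨(i : ℕ) + 1, h⟩, e⟩
      · refine ⟨0, ?_⟩
        have h3 : (i : ℕ) + 1 = 3 := by have := i.2; omega
        rw [e, h3, hc.per]
        simp
  refine ⟨σ * z * σ⁻¹, hK.conj_mem z hz σ, ?_, ?_⟩
  · have h0 := hσ 0
    have h1 := hσ 1
    have e0 : z ^ ((0 : Fin 3) : ℕ) • x₁ = x₁ := by simp
    have e1 : z ^ ((1 : Fin 3) : ℕ) • x₁ = z • x₁ := by simp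
    rw [e0] at h0
    rw [e1] at h1
    have key : (σ * z * σ⁻¹) • (σ • x₁) = σ • (z • x₁) := by
      rw [← mul_smul, ← mul_smul]
      congr 1
      group
    rcases h0 with h0 | h0
    · rw [h0] at key
      rw [key]
      exact h1
    · rw [h0, ← hS.comm] at key
      have key2 : (σ * z * σ⁻¹) • c 0 = bar (σ • (z • x₁)) := by
        rw [← key, hS.bb]
      rw [key2]
      rcases h1 with h1 | h1
      · right; rw [h1]
      · left; rw [h1, hS.bb]
  · intro w hw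
    have hfix : z • (σ⁻¹ • w) = σ⁻¹ • w := by
      rcases hc.fix (σ⁻¹ • w) with ⟨k, hk⟩ | h
      · exfalso
        obtain ⟨i, hi⟩ := hpow k
        rw [hi] at hk
        have hi' := hσ i
        rcases hk with hk | hk
        · have e : w = σ • (z ^ (i : ℕ) • x₁) := by rw [← hk, smul_inv_smul]
          rcases hi' with h2 | h2
          · exact (hw i).1 (e.trans h2)
          · exact (hw i).2 (e.trans h2)
        · have e : w = bar (σ • (z ^ (i : ℕ) • x₁)) := by rw [hS.comm, ← hk, smul_inv_smul]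
          rcases hi' with h2 | h2
          · exact (hw i).2 (by rw [e, h2])
          · exact (hw i).1 (by rw [e, h2, hS.bb])
      · exact h
    rw [mul_smul, mul_smul, hfix, smul_inv_smul]

lemma dist_smul (hS : Sgn G X bar) {m : ℕ} {a : Fin m → X} (ha : Dist bar a) (κ : G) :
    Dist bar (fun i => κ • a i) := by
  intro i j hij
  refine ⟨fun h => (ha i j hij).1 (smul_left_cancel κ h), fun h => (ha i j hij).2 ?_⟩
  simp only at h
  rw [hS.comm] at h
  exact smul_left_cancel κ h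

lemma ne_of_E (hS : Sgn G X bar) {u s v : X} (h : u = s ∨ u = bar s) (h1 : v ≠ u) (h2 : v ≠ bar u) :
    v ≠ s ∧ v ≠ bar s := by
  rcases h with rfl | rfl
  · exact ⟨h1, h2⟩
  · rw [hS.bb] at h2
    exact ⟨h2, h1⟩

lemma E_fix (hS : Sgn G X bar) {u s : X} {κ : G} (hκ : κ • s = s) (h : u = s ∨ u = bar s) :
    κ • u = s ∨ κ • u = bar s := by
  rcases h with rfl | rfl
  · exact Or.inl hκ
  · right; rw [← hS.comm, hκ]

end

theorem t_K3 : S_K3 := by
  intro G X _ _ _ _ bar g hS hX hg hMT K hK hz0 hflip a b ha hb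
  obtain ⟨z, x₁, hzK, hz⟩ := hz0
  have hMT3 := hMT 3 (by norm_num)
  -- one element is moved to the pair of another one
  have step : ∀ s t x y : X, x ≠ s → x ≠ bar s → x ≠ t → x ≠ bar t → y ≠ s → y ≠ bar s → y ≠ t →
      y ≠ bar t → ∃ κ ∈ K, (κ • x = y ∨ κ • x = bar y) ∧ κ • s = s ∧ κ • t = t := by
    intro s t x y h1 h2 h3 h4 h5 h6 h7 h8
    by_cases e1 : x = y
    · exact ⟨1, K.one_mem, Or.inl (by rw [one_smul, e1]), one_smul _ _, one_smul _ _⟩
    by_cases e2 : x = bar y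
    · exact ⟨1, K.one_mem, Or.inr (by rw [one_smul, e2]), one_smul _ _, one_smul _ _⟩
    obtain ⟨w, w1, w2, w3, w4, w5, w6, w7, w8⟩ := fresh hS hX (by omega) s t x y
    have e3 : y ≠ x := Ne.symm e1
    have e4 : y ≠ bar x := bar_ne hS e2
    have w5' := Ne.symm w5
    have w6' := bar_ne hS w6
    have w7' := Ne.symm w7
    have w8' := bar_ne hS w8
    have hD : Dist bar ![x, y, w] := by
      intro i j hij
      fin_cases i <;> fin_cases j <;> first
        | exact absurd rfl hij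
        | exact ⟨e1, e2⟩
        | exact ⟨e3, e4⟩
        | exact ⟨w5, w6⟩
        | exact ⟨w7, w8⟩
        | exact ⟨w5', w6'⟩
        | exact ⟨w7', w8'⟩
    obtain ⟨κ, hκ, h9, h10⟩ := rot hS hMT3 hK hzK hz ![x, y, w] hD
    refine ⟨κ, hκ, h9, h10 s ?_, h10 t ?_⟩
    · intro i
      fin_cases i
      · exact ⟨Ne.symm h1, bar_ne hS h2⟩
      · exact ⟨Ne.symm h5, bar_ne hS h6⟩
      · exact ⟨Ne.symm w1, bar_ne hS w2⟩
    · intro i
      fin_cases i
      · exact ⟨Ne.symm h3, bar_ne hS h4⟩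
      · exact ⟨Ne.symm h7, bar_ne hS h8⟩
      · exact ⟨Ne.symm w3, bar_ne hS w4⟩
  -- a sign is changed
  have sg : ∀ s t y u : X, y ≠ s → y ≠ bar s → y ≠ t → y ≠ bar t → (u = y ∨ u = bar y) →
      ∃ ν ∈ K, ν • u = y ∧ ν • s = s ∧ ν • t = t := by
    intro s t y u h1 h2 h3 h4 hu
    rcases hu with rfl | rfl
    · exact ⟨1, K.one_mem, one_smul _ _, one_smul _ _, one_smul _ _⟩
    · obtain ⟨w, w1, w2, w3, w4, w5, w6, w7, w8⟩ := fresh hS hX (by omega) s t y y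
      obtain ⟨ν, hν, n1, n2, n3⟩ := hflip y w w5 w6
      refine ⟨ν, hν, ?_, n3 s (Ne.symm h1) (bar_ne hS h2) (Ne.symm w1) (bar_ne hS w2),
        n3 t (Ne.symm h3) (bar_ne hS h4) (Ne.symm w3) (bar_ne hS w4)⟩
      rw [← hS.comm, n1, hS.bb]
  have b01 := hb 0 1 (by decide)
  have b02 := hb 0 2 (by decide)
  have b10 := hb 1 0 (by decide)
  have b12 := hb 1 2 (by decide)
  have b20 := hb 2 0 (by decide)
  have b21 := hb 2 1 (by decide)
  -- the first coordinate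
  obtain ⟨v, v1, v2, v3, v4, -, -, -, -⟩ := fresh hS hX (by omega) (a 0) (b 0) (a 0) (b 0)
  obtain ⟨κ0, hκ0, k00, -, -⟩ := step v v (a 0) (b 0) (Ne.symm v1) (bar_ne hS v2) (Ne.symm v1)
    (bar_ne hS v2) (Ne.symm v3) (bar_ne hS v4) (Ne.symm v3) (bar_ne hS v4)
  have ha1 := dist_smul hS ha κ0
  -- the second coordinate
  have c1 := ne_of_E hS k00 (ha1 1 0 (by decide)).1 (ha1 1 0 (by decide)).2
  obtain ⟨κ1, hκ1, k11, k10, -⟩ := step (b 0) (b 0) (κ0 • a 1) (b 1) c1.1 c1.2 c1.1 c1.2 b10.1 b10.2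
    b10.1 b10.2
  have ha2 := dist_smul hS ha1 κ1
  have k10' := E_fix hS k10 k00
  -- the third coordinate
  have c2 := ne_of_E hS k10' (ha2 2 0 (by decide)).1 (ha2 2 0 (by decide)).2
  have c3 := ne_of_E hS k11 (ha2 2 1 (by decide)).1 (ha2 2 1 (by decide)).2
  obtain ⟨κ2, hκ2, k22, k20, k21⟩ := step (b 0) (b 1) (κ1 • κ0 • a 2) (b 2) c2.1 c2.2 c3.1 c3.2
    b20.1 b20.2 b21.1 b21.2
  have m0 := E_fix hS k20 k10'
  have m1 := E_fix hS k21 k11
  -- the signs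
  obtain ⟨ν0, hν0, p0, p1, p2⟩ := sg (b 1) (b 2) (b 0) _ b01.1 b01.2 b02.1 b02.2 m0
  have q1 := E_fix hS p1 m1
  have q2 := E_fix hS p2 k22
  obtain ⟨ν1, hν1, r1, r0, r2⟩ := sg (b 0) (b 2) (b 1) _ b10.1 b10.2 b12.1 b12.2 q1
  have t2 := E_fix hS r2 q2
  obtain ⟨ν2, hν2, u2, u0, u1⟩ := sg (b 0) (b 1) (b 2) _ b20.1 b20.2 b21.1 b21.2 t2
  refine ⟨ν2 * (ν1 * (ν0 * (κ2 * (κ1 * κ0)))), K.mul_mem hν2 (K.mul_mem hν1 (K.mul_mem hν0
    (K.mul_mem hκ2 (K.mul_mem hκ1 hκ0)))), ?_⟩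
  intro i
  simp only [mul_smul]
  fin_cases i
  · show ν2 • ν1 • ν0 • κ2 • κ1 • κ0 • a 0 = b 0
    rw [p0, r0, u0]
  · show ν2 • ν1 • ν0 • κ2 • κ1 • κ0 • a 1 = b 1
    rw [r1, u1]
  · show ν2 • ν1 • ν0 • κ2 • κ1 • κ0 • a 2 = b 2
    exact u2

end Pool.Agent.J4H46.BF
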